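import Mathlib

set_option linter.style.longLine false

namespace Pool.Agent.Q192.JH

open CategoryTheory CategoryTheory.Limits CategoryTheory.Pretriangulated

universe v u

section General

variable (C : Type u) [Category.{v} C] [Preadditive C] [HasZeroObject C] [HasShift C ℤ]
  [∀ n : ℤ, (shiftFunctor C n).Additive] [Pretriangulated C]

variable {C} in
/-- `E` has a Harder-Narasimhan filtration with respect to `P`: a chain
`0 = X 0 → X 1 → ... → X n = E` with cones `A i ∈ P (φ i)` and `φ 0 > φ 1 > ... > φ (n-1)`. -/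
def HasHN (P : ℝ → ObjectProperty C) (E : C) : Prop :=
  ∃ (n : ℕ) (X A : ℕ → C) (φ : ℕ → ℝ),
    IsZero (X 0) ∧ Nonempty (X n ≅ E) ∧
    (∀ i j, i < j → j < n → φ j < φ i) ∧
    ∀ i < n, P (φ i) (A i) ∧
      ∃ (f : X i ⟶ X (i + 1)) (g : X (i + 1) ⟶ A i) (h : A i ⟶ (X i)⟦(1 : ℤ)⟧),
        Triangle.mk f g h ∈ distTriang C

/-- A slicing of a triangulated category in the sense of Bridgeland. -/
structure Slicing where
  /-- the slices, full subcategories `P φ` -/
  P : ℝ → ObjectProperty C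
  iso_closed : ∀ (φ : ℝ) (X Y : C), (X ≅ Y) → P φ X → P φ Y
  zero_mem : ∀ (φ : ℝ) (X : C), IsZero X → P φ X
  biprod_mem : ∀ (φ : ℝ) (X Y : C), P φ X → P φ Y → P φ (X ⊞ Y)
  shift_iff : ∀ (φ : ℝ) (X : C), P (φ + 1) (X⟦(1 : ℤ)⟧) ↔ P φ X
  hom_zero : ∀ (φ₁ φ₂ : ℝ), φ₂ < φ₁ → ∀ (X Y : C) (f : X ⟶ Y), P φ₁ X → P φ₂ Y → f = 0
  hn : ∀ E : C, HasHN P E

/-- Homomorphisms `K(C) → Λ` out of the Grothendieck group of a triangulated category: functions
on objects which are additive on distinguished triangles. -/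
structure K0Hom (Λ : Type) [AddCommGroup Λ] where
  /-- the function on objects -/
  v : C → Λ
  add : ∀ T ∈ distTriang C, v T.obj₂ = v T.obj₁ + v T.obj₃

end General

section Categories

variable {D : Type u} [Category.{v} D] [HasZeroMorphisms D]

/-- A strict monomorphism: a kernel of some morphism. -/
def IsStrictMono {X Y : D} (f : X ⟶ Y) : Prop :=
  ∃ (Z : D) (g : Y ⟶ Z) (w : f ≫ g = 0), Nonempty (IsLimit (KernelFork.ofι f w))

/-- Simple objects: nonzero objects whose only strict subobjects are `0` and the whole object. -/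
def IsSimpleObj (X : D) : Prop :=
  ¬ IsZero X ∧ ∀ (Y : D) (f : Y ⟶ X), IsStrictMono f → IsZero Y ∨ IsIso f

/-- A composition series of `c`: a chain `0 = c 0 ⊂ c 1 ⊂ ... ⊂ c n = c` of strict subobjects
with simple successive quotients. -/
structure CompSeries (c : D) where
  /-- length -/
  n : ℕ
  /-- the members of the chain -/
  obj : Fin (n + 1) → D
  /-- the inclusions in `c` -/
  incl : ∀ i, obj i ⟶ c
  strict : ∀ i, IsStrictMono (incl i)
  zero : IsZero (obj 0)
  last : IsIso (incl (Fin.last n))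
  /-- the inclusions of consecutive members -/
  map : ∀ i : Fin n, obj i.castSucc ⟶ obj i.succ
  comm : ∀ i : Fin n, map i ≫ incl i.succ = incl i.castSucc
  /-- the successive quotients -/
  quot : Fin n → D
  /-- the projections -/
  proj : ∀ i : Fin n, obj i.succ ⟶ quot i
  w : ∀ i : Fin n, map i ≫ proj i = 0
  isCokernel : ∀ i : Fin n, Nonempty (IsColimit (CokernelCofork.ofπ (proj i) (w i)))
  simple : ∀ i : Fin n, IsSimpleObj (quot i)

variable (D) in
/-- The Jordan-Hölder property: any two composition series of the same object have the same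
length and, after a permutation, pairwise isomorphic factors. -/
def JordanHolder : Prop :=
  ∀ (c : D) (s t : CompSeries c),
    ∃ σ : Fin s.n ≃ Fin t.n, ∀ i, Nonempty (s.quot i ≅ t.quot (σ i))

end Categories

section Lax

variable (C : Type u) [Category.{v} C] [Preadditive C] [HasZeroObject C] [HasShift C ℤ]
  [∀ n : ℤ, (shiftFunctor C n).Additive] [Pretriangulated C]

/-- A lax stability condition on `C` with respect to `v : K(C) → Λ = ℤ^r`, where `ν` is a norm on
`Λ ⊗ ℝ = ℝ^r`. The mass of `c ∈ P φ` is `|Z (v c)|`. -/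
structure LaxStability (r : ℕ) (v : K0Hom C (Fin r → ℤ)) (ν : Seminorm ℝ (Fin r → ℝ))
    extends Slicing C where
  /-- the central charge -/
  Z : (Fin r → ℤ) →+ ℂ
  /-- `Z (v c) = m(c) exp (i π φ)` with `m(c) ≥ 0` for `0 ≠ c ∈ P φ` -/
  mass : ∀ (φ : ℝ) (c : C), P φ c → ¬ IsZero c →
    ∃ m : ℝ, 0 ≤ m ∧ Z (v.v c) = m * Complex.exp (Complex.I * Real.pi * φ)
  norm_def : ∀ x, ν x = 0 → x = 0
  /-- the support property for massive stable objects -/
  support : ∃ K : ℝ, 0 < K ∧ ∀ (φ : ℝ) (s : (P φ).FullSubcategory), IsSimpleObj s →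
    0 < ‖Z (v.v s.obj)‖ → ν (fun i => (v.v s.obj i : ℝ)) / K ≤ ‖Z (v.v s.obj)‖

end Lax

end Pool.Agent.Q192.JH
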