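import Mathlib

set_option linter.style.longLine false

namespace Pool.Agent.Q192.JH

open Zsqrtd

/-- the ring `ℤ[√-5]` -/
abbrev R : Type := ℤ√(-5)

lemma normEq (z : R) : Zsqrtd.norm z = z.re * z.re + 5 * (z.im * z.im) := by
  simp [Zsqrtd.norm_def]; ring

instance : IsDomain R := by
  have : NoZeroDivisors R := by
    refine ⟨?_⟩
    intro a b h
    have h2 : Zsqrtd.norm a * Zsqrtd.norm b = 0 := by
      rw [← Zsqrtd.norm_mul, h]; simp
    rcases mul_eq_zero.1 h2 with h3 | h3
    · left; exact (Zsqrtd.norm_eq_zero_iff (by norm_num) a).1 h3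
    · right; exact (Zsqrtd.norm_eq_zero_iff (by norm_num) b).1 h3
  exact NoZeroDivisors.to_isDomain R

instance : Module.Finite ℤ R := by
  refine ⟨⟨{1, Zsqrtd.sqrtd}, ?_⟩⟩
  rw [eq_top_iff]
  intro z _
  have : z = z.re • (1 : R) + z.im • (Zsqrtd.sqrtd : R) := by
    ext <;> simp
  rw [this]
  apply Submodule.add_mem
  · exact Submodule.smul_mem _ _ (Submodule.subset_span (by simp))
  · exact Submodule.smul_mem _ _ (Submodule.subset_span (by simp))

instance : IsNoetherianRing R := by
  have : IsNoetherian ℤ R := inferInstance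
  exact isNoetherian_of_tower ℤ inferInstance

/-- `α = 1 + √-5` -/
def al : R := ⟨1, 1⟩
/-- the conjugate `1 - √-5` -/
def al' : R := ⟨1, -1⟩

lemma al_mul : al * al' = 6 := by
  ext <;> simp [al, al']

lemma al_sq : al * al = 2 * ⟨-2, 1⟩ := by
  ext <;> simp [al]

lemma al'_eq : al' = 2 - al := by
  ext <;> simp [al, al']

/-- the ideal `(2, 1 + √-5)` -/
def I2 : Ideal R := Ideal.span {2, al}

lemma two_mem : (2 : R) ∈ I2 := Ideal.subset_span (by simp)
lemma al_mem : al ∈ I2 := Ideal.subset_span (by simp)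
lemma al'_mem : al' ∈ I2 := by
  rw [al'_eq]; exact Ideal.sub_mem _ two_mem al_mem

/-- elements of the ideal have `re ≡ im mod 2` -/
lemma parity {z : R} (hz : z ∈ I2) : (2 : ℤ) ∣ z.re - z.im := by
  rw [I2, Ideal.mem_span_pair] at hz
  obtain ⟨a, b, rfl⟩ := hz
  simp [al]
  omega

lemma one_not_mem : (1 : R) ∉ I2 := by
  intro h
  have := parity h
  simp at this

lemma not_principal (g : R) : I2 ≠ Ideal.span {g} := by
  intro h
  have h1 : g ∣ 2 := by
    have := two_mem; rw [h, Ideal.mem_span_singleton] at this; exact this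
  have h2 : g ∣ al := by
    have := al_mem; rw [h, Ideal.mem_span_singleton] at this; exact this
  have n1 : Zsqrtd.norm g ∣ 4 := by
    obtain ⟨c, hc⟩ := h1
    have := congrArg Zsqrtd.norm hc
    rw [Zsqrtd.norm_mul] at this
    refine ⟨Zsqrtd.norm c, ?_⟩
    rw [← this, normEq]; norm_num
  have n2 : Zsqrtd.norm g ∣ 6 := by
    obtain ⟨c, hc⟩ := h2
    have := congrArg Zsqrtd.norm hc
    rw [Zsqrtd.norm_mul] at this
    refine ⟨Zsqrtd.norm c, ?_⟩
    rw [← this, normEq]; simp [al]
  have n3 : Zsqrtd.norm g ∣ 2 := by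
    have := dvd_sub n2 n1; norm_num at this; exact this
  have hn := normEq g
  have hpos : 0 ≤ Zsqrtd.norm g := by rw [hn]; nlinarith [mul_self_nonneg g.re, mul_self_nonneg g.im]
  have hle : Zsqrtd.norm g ≤ 2 := Int.le_of_dvd (by norm_num) n3
  have him : g.im = 0 := by
    by_contra hne
    have : 1 ≤ g.im * g.im := by
      have := mul_self_pos.2 hne
      omega
    nlinarith [mul_self_nonneg g.re]
  rw [him] at hn
  have hne0 : Zsqrtd.norm g ≠ 0 := by
    intro h0
    rw [h0] at n3
    norm_num at n3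
  have hre : g.re * g.re = 1 := by
    have h4 : g.re * g.re ≤ 2 := by linarith
    have h5 : g.re ≤ 1 := by nlinarith
    have h6 : -1 ≤ g.re := by nlinarith
    have h7 : g.re ≠ 0 := by
      intro h0; apply hne0; rw [hn, h0]; norm_num
    have : g.re = 1 ∨ g.re = -1 := by omega
    rcases this with h | h <;> rw [h] <;> norm_num
  have hunit : g * g = 1 := by
    ext
    · simp [him, hre]
    · simp [him]
  apply one_not_mem
  rw [h, Ideal.mem_span_singleton]
  exact ⟨g, hunit.symm⟩

/-- `I` is not isomorphic to `R`. -/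
lemma not_iso (e : R ≃ₗ[R] I2) : False := by
  apply not_principal (e 1 : R)
  apply _root_.le_antisymm
  · intro z hz
    rw [Ideal.mem_span_singleton]
    refine ⟨e.symm ⟨z, hz⟩, ?_⟩
    have h1 : e (e.symm ⟨z, hz⟩) = ⟨z, hz⟩ := e.apply_symm_apply _
    have h2 : e (e.symm ⟨z, hz⟩) = (e.symm ⟨z, hz⟩) • e 1 := by
      rw [← map_smul]; simp
    have h3 := congrArg (Subtype.val) (h2.symm.trans h1)
    simp at h3
    exact h3.symm.trans (mul_comm _ _)
  · rw [Ideal.span_singleton_le_iff_mem]
    exact (e 1).2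

/-- the matrix `[[2, α],[α', 2]]`, as a map `R × R → I × I` -/
def mapRR : (R × R) →ₗ[R] (I2 × I2) where
  toFun p := (⟨2 * p.1 + al * p.2, Ideal.add_mem _ (Ideal.mul_mem_right _ _ two_mem) (Ideal.mul_mem_right _ _ al_mem)⟩,
    ⟨al' * p.1 + 2 * p.2, Ideal.add_mem _ (Ideal.mul_mem_right _ _ al'_mem) (Ideal.mul_mem_right _ _ two_mem)⟩)
  map_add' p q := by
    apply Prod.ext <;> apply Subtype.ext <;> simp <;> ring
  map_smul' c p := by
    apply Prod.ext <;> apply Subtype.ext <;> simp <;> ring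

lemma mapRR_bij : Function.Bijective mapRR := by
  have h2 : (2 : R) ≠ 0 := by
    intro h
    have := congrArg Zsqrtd.re h
    norm_num at this
  constructor
  · rw [injective_iff_map_eq_zero]
    rintro ⟨r, s⟩ h
    have e1 : 2 * r + al * s = 0 := congrArg (fun q : I2 × I2 => (q.1 : R)) h
    have e2 : al' * r + 2 * s = 0 := congrArg (fun q : I2 × I2 => (q.2 : R)) h
    have e3 : 2 * r = 0 := by
      have := al_mul
      linear_combination al * e2 - 2 * e1 - r * this
    have e4 : 2 * s = 0 := by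
      have := al_mul
      linear_combination al' * e1 - 2 * e2 - s * this
    have hr := (mul_eq_zero.1 e3).resolve_left h2
    have hs := (mul_eq_zero.1 e4).resolve_left h2
    rw [hr, hs]; rfl
  · rintro ⟨⟨x, hx⟩, ⟨y, hy⟩⟩
    obtain ⟨a, b, hab⟩ := Ideal.mem_span_pair.1 hx
    obtain ⟨c, d, hcd⟩ := Ideal.mem_span_pair.1 hy
    -- r = (-2x + α y)/2 , s = (α' x - 2 y)/2
    refine ⟨(-x + al * c + ⟨-2, 1⟩ * d, al' * a + 3 * b - y), ?_⟩
    apply Prod.ext
    · apply Subtype.ext
      show 2 * (-x + al * c + ⟨-2, 1⟩ * d) + al * (al' * a + 3 * b - y) = x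
      have h1 := al_sq
      have h2 := al_mul
      linear_combination (3 : R) * hab + al * hcd - d * h1 + a * h2
    · apply Subtype.ext
      show al' * (-x + al * c + ⟨-2, 1⟩ * d) + 2 * (al' * a + 3 * b - y) = y
      have h1 := al_sq
      have h2 := al_mul
      have h3 : al' * (⟨-2, 1⟩ : R) = 3 * al := by
        ext <;> simp [al, al']
      linear_combination al' * hab + (3 : R) * hcd + c * h2 + d * h3 - b * h2

/-- `R × R ≃ I × I` -/
noncomputable def equivRR : (R × R) ≃ₗ[R] (I2 × I2) := LinearEquiv.ofBijective mapRR mapRR_bij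

end Pool.Agent.Q192.JH
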