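import Mathlib
import Pool.Agent.Q192.JH.Defs
import Pool.Agent.Q192.JH.RingPart

set_option linter.style.longLine false

namespace Pool.Agent.Q192.JH

open CategoryTheory CategoryTheory.Limits CategoryTheory.Pretriangulated
open CategoryTheory.Triangulated DerivedCategory
open scoped ZeroObject

noncomputable section

/-- modules over `ℤ[√-5]` -/
abbrev MR : Type 1 := ModuleCat.{0} R

instance instHDC : HasDerivedCategory.{1} MR := HasDerivedCategory.standard MR

/-- the derived category of modules -/
abbrev DR : Type 1 := DerivedCategory MR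

/-- the canonical t-structure -/
abbrev tD : TStructure DR := DerivedCategory.TStructure.t

/-- all cohomology modules are finitely generated -/
def fin : ObjectProperty DR := fun X => ∀ i : ℤ, Module.Finite R ((homologyFunctor MR i).obj X)

lemma finite_of_iso {M N : MR} (e : M ≅ N) (h : Module.Finite R M) : Module.Finite R N :=
  Module.Finite.equiv e.toLinearEquiv

lemma finite_of_isZero {M : MR} (h : IsZero M) : Module.Finite R M := by
  have : Subsingleton M := ModuleCat.subsingleton_of_isZero h
  infer_instance

lemma finite_of_exact (S : ShortComplex MR) (hS : S.Exact) (h1 : Module.Finite R S.X₁)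
    (h3 : Module.Finite R S.X₃) : Module.Finite R S.X₂ := by
  have h := (ShortComplex.moduleCat_exact_iff_range_eq_ker S).1 hS
  have : Module.Finite R (LinearMap.range S.g.hom) := inferInstance
  have : Module.Finite R (LinearMap.ker S.g.hom) := by
    rw [← h]; infer_instance
  have e := S.g.hom.quotKerEquivRange
  have : Module.Finite R (S.X₂ ⧸ LinearMap.ker S.g.hom) := Module.Finite.equiv e.symm
  exact Module.Finite.of_submodule_quotient (LinearMap.ker S.g.hom)

instance : fin.IsClosedUnderIsomorphisms where
  of_iso e h i := finite_of_iso ((homologyFunctor MR i).mapIso e) (h i)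

instance : fin.IsTriangulated where
  exists_zero := ⟨0, isZero_zero _, fun i => finite_of_isZero
    (Functor.map_isZero (homologyFunctor MR i) (isZero_zero _))⟩
  isStableUnderShiftBy a :=
    { le_shift := by
        intro X hX i
        exact finite_of_iso (((homologyFunctor MR 0).shiftIso a i (a + i) rfl).symm.app X)
          (hX (a + i)) }
  toIsTriangulatedClosed₂ := .mk' (by
    intro T hT h1 h3 i
    exact finite_of_exact _ (HomologySequence.exact₂ T hT i) (h1 i) (h3 i))

instance : fin.HasInducedTStructure tD where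
  exists_triangle_zero_one A hA := by
    obtain ⟨X, Y, hX, hY, f, g, h, hT⟩ := tD.exists_triangle_zero_one A
    have hX' : tD.IsLE X 0 := ⟨hX⟩
    have hY' : tD.IsGE Y 1 := ⟨hY⟩
    refine ⟨X, Y, hX', hY', f, g, h, hT, ?_, ?_⟩
    · refine fin.le_isoClosure _ ?_
      intro i
      by_cases hi : 0 < i
      · exact finite_of_isZero (isZero_of_isLE X 0 i hi)
      · have := HomologySequence.exact₁ _ hT (i - 1) i (by lia)
        exact finite_of_exact _ this
          (finite_of_isZero (isZero_of_isGE Y 1 (i - 1) (by lia))) (hA i)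
    · refine fin.le_isoClosure _ ?_
      intro i
      by_cases hi : i < 1
      · exact finite_of_isZero (isZero_of_isGE Y 1 i hi)
      · have := HomologySequence.exact₃ _ hT i (i + 1) rfl
        exact finite_of_exact _ this (hA i)
          (finite_of_isZero (isZero_of_isLE X 0 (i + 1) (by lia)))

/-- bounded complexes with finitely generated cohomology -/
abbrev Pf : ObjectProperty DR := tD.bounded ⊓ fin

instance : Pf.HasInducedTStructure tD := inferInstance
instance : Pf.IsTriangulated := inferInstance
instance : Pf.IsClosedUnderIsomorphisms := inferInstance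

/-- the bounded derived category of finitely generated `ℤ[√-5]`-modules -/
abbrev CC : Type 1 := Pf.FullSubcategory

instance : IsTriangulated CC := inferInstance

/-- the induced t-structure -/
abbrev tC : TStructure CC := Pf.tStructure tD

/-- the module `M` placed in cohomological degree `-k` -/
abbrev sl (k : ℤ) (M : MR) : DR := ((singleFunctor MR 0).obj M)⟦k⟧

instance (k : ℤ) (M : MR) : tD.IsLE (sl k M) (-k) := tD.isLE_shift _ 0 k (-k) (by lia)
instance (k : ℤ) (M : MR) : tD.IsGE (sl k M) (-k) := tD.isGE_shift _ 0 k (-k) (by lia)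

/-- the cohomology of `sl k M` -/
def homSl (k : ℤ) (M : MR) : (homologyFunctor MR (-k)).obj (sl k M) ≅ M :=
  ((homologyFunctor MR 0).shiftIso k (-k) 0 (by lia)).app _ ≪≫
    (singleFunctorCompHomologyFunctorIso MR 0).app M

lemma sl_Pf (k : ℤ) (M : MR) (hM : Module.Finite R M) : Pf (sl k M) := by
  refine ⟨⟨⟨-k, inferInstance⟩, ⟨-k, inferInstance⟩⟩, ?_⟩
  intro i
  rcases lt_trichotomy i (-k) with hi | hi | hi
  · exact finite_of_isZero (isZero_of_isGE _ (-k) i hi)
  · subst hi; exact finite_of_iso (homSl k M).symm hM
  · exact finite_of_isZero (isZero_of_isLE _ (-k) i hi)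

lemma exists_sl (X : DR) (k : ℤ) (h1 : tD.IsLE X (-k)) (h2 : tD.IsGE X (-k)) :
    ∃ M : MR, Nonempty (X ≅ sl k M) := by
  have h3 : tD.IsLE (X⟦-k⟧) 0 := tD.isLE_shift X (-k) (-k) 0 (by lia)
  have h4 : tD.IsGE (X⟦-k⟧) 0 := tD.isGE_shift X (-k) (-k) 0 (by lia)
  obtain ⟨M, ⟨e⟩⟩ := exists_iso_singleFunctor_obj_of_isGE_of_isLE (X⟦-k⟧) 0
  refine ⟨M, ⟨(shiftShiftNeg X (-k)).symm ≪≫ ?_⟩⟩
  exact (shiftFunctor DR (- -k)).mapIso e ≪≫ eqToIso (by simp)

end

end Pool.Agent.Q192.JH
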