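import Mathlib
import Pool.Agent.Q192.JH.Defs

set_option linter.style.longLine false

namespace Pool.Agent.Q192.JH

open CategoryTheory CategoryTheory.Limits CategoryTheory.Pretriangulated
open CategoryTheory.Triangulated CategoryTheory.ObjectProperty

universe v u

variable {C : Type u} [Category.{v} C] [Preadditive C] [HasZeroObject C] [HasShift C ℤ]
  [∀ n : ℤ, (shiftFunctor C n).Additive] [Pretriangulated C]

/-- HN filtrations with all phases `> ψ` -/
def HNgt (P : ℝ → ObjectProperty C) (ψ : ℝ) : ObjectProperty C := fun E =>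
  ∃ (n : ℕ) (X A : ℕ → C) (φ : ℕ → ℝ),
    IsZero (X 0) ∧ Nonempty (X n ≅ E) ∧
    (∀ i j, i < j → j < n → φ j < φ i) ∧
    (∀ i < n, ψ < φ i) ∧
    ∀ i < n, P (φ i) (A i) ∧
      ∃ (f : X i ⟶ X (i + 1)) (g : X (i + 1) ⟶ A i) (h : A i ⟶ (X i)⟦(1 : ℤ)⟧),
        Triangle.mk f g h ∈ distTriang C

lemma HNgt.hasHN {P : ℝ → ObjectProperty C} {ψ : ℝ} {E : C} (h : HNgt P ψ E) : HasHN P E := by
  obtain ⟨n, X, A, φ, h1, h2, h3, -, h4⟩ := h
  exact ⟨n, X, A, φ, h1, h2, h3, h4⟩

lemma HNgt_zero {P : ℝ → ObjectProperty C} (ψ : ℝ) {E : C} (h : IsZero E) : HNgt P ψ E :=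
  ⟨0, fun _ => E, fun _ => E, fun _ => 0, h, ⟨Iso.refl _⟩, by intros; omega, by intros; omega,
    by intros; omega⟩

lemma tri_cast {a b c a' b' c' : C} (ha : a' = a) (hb : b' = b) (hc : c' = c)
    (h : ∃ (f : a ⟶ b) (g : b ⟶ c) (h : c ⟶ a⟦(1 : ℤ)⟧), Triangle.mk f g h ∈ distTriang C) :
    ∃ (f : a' ⟶ b') (g : b' ⟶ c') (h : c' ⟶ a'⟦(1 : ℤ)⟧), Triangle.mk f g h ∈ distTriang C := by
  subst ha; subst hb; subst hc; exact h

lemma HNgt_step {P : ℝ → ObjectProperty C} {ψ ψ' : ℝ} (h : ψ < ψ') {E : C}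
    (hE : extensionProduct (HNgt P ψ') (P ψ') E) : HNgt P ψ E := by
  obtain ⟨Y, Z, f, g, k, hT, ⟨n, X, A, φ, h1, ⟨e⟩, h3, h4, h5⟩, hZ⟩ := hE
  refine ⟨n + 1, fun i => if i ≤ n then X i else E, fun i => if i < n then A i else Z,
    fun i => if i < n then φ i else ψ', ?_, ?_, ?_, ?_, ?_⟩
  · simpa using h1
  · simp only [show ¬ (n + 1 ≤ n) by omega, if_false]; exact ⟨Iso.refl _⟩
  · intro i j hij hj
    by_cases hj' : j < n
    · simp only [hj', if_true, show i < n by omega]; exact h3 i j hij hj'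
    · have : i < n := by omega
      simp only [hj', if_false, this, if_true]; exact h4 i this
  · intro i hi
    by_cases hi' : i < n
    · simp only [hi', if_true]; exact h.trans (h4 i hi')
    · simp only [hi', if_false]; exact h
  · intro i hi
    by_cases hi' : i < n
    · refine ⟨?_, tri_cast (if_pos (by omega)) (if_pos (by omega)) (if_pos hi') (h5 i hi').2⟩
      simp only [hi', if_true]
      exact (h5 i hi').1
    · have hin : i = n := by omega
      subst hin
      refine ⟨?_, tri_cast (if_pos (le_refl _)) (if_neg (by omega)) (if_neg (by omega))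
        ⟨e.hom ≫ f, g, k ≫ e.inv⟦(1 : ℤ)⟧', ?_⟩⟩
      · simp only [lt_irrefl, if_false]; exact hZ
      refine isomorphic_distinguished _ hT _ (Triangle.isoMk _ _ e (Iso.refl _) (Iso.refl _) ?_ ?_ ?_)
      · exact Category.comp_id _
      · exact (Category.comp_id _).trans (Category.id_comp _).symm
      · show (k ≫ (shiftFunctor C (1 : ℤ)).map e.inv) ≫ (shiftFunctor C (1 : ℤ)).map e.hom = 𝟙 Z ≫ k
        rw [Category.assoc, ← Functor.map_comp, e.inv_hom_id, CategoryTheory.Functor.map_id, Category.comp_id,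
          Category.id_comp]

lemma HN_aux [IsTriangulated C] (τ : TStructure C) (P : ℝ → ObjectProperty C)
    (hP : ∀ (b : ℤ) (Y : C), τ.IsLE Y b → τ.IsGE Y b →
      extensionProduct (P (1 - b)) (P (1 / 2 - b)) Y) (a : ℤ) :
    ∀ (N : ℕ) (E : C), τ.IsGE E a → τ.IsLE E (a - 1 + N) →
      ∀ ψ : ℝ, ψ < 1 / 2 - ((a - 1 + N : ℤ) : ℝ) → HNgt P ψ E := by
  intro N
  induction N with
  | zero =>
    intro E h1 h2 ψ _
    have h2' : τ.IsLE E (a - 1) := by simpa using h2
    exact HNgt_zero ψ (τ.isZero E (a - 1) a)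
  | succ N ih =>
    intro E h1 h2 ψ hψ
    set b : ℤ := a + N with hb
    have h2' : τ.IsLE E b := by
      have : a - 1 + ((N + 1 : ℕ) : ℤ) = b := by push_cast; omega
      rwa [this] at h2
    have hψ' : ψ < 1 / 2 - (b : ℝ) := by
      have : a - 1 + ((N + 1 : ℕ) : ℤ) = b := by push_cast; omega
      rwa [this] at hψ
    have hX1 : τ.IsGE ((τ.truncLT b).obj E) a := inferInstance
    have hX2 : τ.IsLE ((τ.truncLT b).obj E) (a - 1 + N) := by
      have : a - 1 + (N : ℤ) = b - 1 := by omega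
      rw [this]; infer_instance
    have hY1 : τ.IsGE ((τ.truncGE b).obj E) b := inferInstance
    have hY2 : τ.IsLE ((τ.truncGE b).obj E) b := inferInstance
    have hX := ih _ hX1 hX2 (1 - b) (by
      rw [show a - 1 + (N : ℤ) = b - 1 by omega]; push_cast; linarith)
    have hY := hP b _ hY2 hY1
    have hE : extensionProduct (HNgt P (1 - b)) (extensionProduct (P (1 - b)) (P (1 / 2 - b))) E :=
      ⟨_, _, _, _, _, τ.triangleLTGE_distinguished b E, hX, hY⟩
    rw [← extensionProduct_assoc] at hE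
    apply HNgt_step hψ'
    refine monotone_extensionProduct_left _ ?_ _ hE
    intro W hW
    exact HNgt_step (by linarith) hW

lemma HN_exists [IsTriangulated C] (τ : TStructure C) (P : ℝ → ObjectProperty C)
    (hP : ∀ (b : ℤ) (Y : C), τ.IsLE Y b → τ.IsGE Y b →
      extensionProduct (P (1 - b)) (P (1 / 2 - b)) Y) (E : C) (a b : ℤ)
      (h1 : τ.IsGE E a) (h2 : τ.IsLE E b) : HasHN P E := by
  by_cases hab : a - 1 ≤ b
  · obtain ⟨N, hN⟩ := Int.eq_ofNat_of_zero_le (show 0 ≤ b - (a - 1) by omega)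
    have : b = a - 1 + N := by omega
    subst this
    exact (HN_aux τ P hP a N E h1 h2 (1 / 2 - ((a - 1 + N : ℤ) : ℝ) - 1) (by linarith)).hasHN
  · have h3 : τ.IsLE E (a - 1) := τ.isLE_of_le E b (a - 1) (by omega)
    exact (HNgt_zero 0 (τ.isZero E (a - 1) a)).hasHN

end Pool.Agent.Q192.JH
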