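import Mathlib
import Pool.Agent.Q192.JH.Cat

set_option linter.style.longLine false

namespace Pool.Agent.Q192.JH

open CategoryTheory CategoryTheory.Limits CategoryTheory.Pretriangulated
open CategoryTheory.Triangulated DerivedCategory
open scoped ZeroObject

noncomputable section

/-- rank of a morphism -/
def rk {M N : MR} (f : M ⟶ N) : ℕ := Module.finrank R (LinearMap.range f.hom)

lemma rk_add (S : ShortComplex MR) (hS : S.Exact) (h : Module.Finite R S.X₂) :
    Module.finrank R S.X₂ = rk S.f + rk S.g := by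
  have h1 := (ShortComplex.moduleCat_exact_iff_range_eq_ker S).1 hS
  have h2 := (LinearMap.ker S.g.hom).finrank_quotient_add_finrank
  have h3 := S.g.hom.quotKerEquivRange.finrank_eq
  unfold rk
  rw [← h2, h3, h1, add_comm]

lemma rk_zero_of_isZero {M N : MR} (f : M ⟶ N) (h : IsZero N) : rk f = 0 := by
  have : Subsingleton N := ModuleCat.subsingleton_of_isZero h
  exact Module.finrank_zero_of_subsingleton

/-- rank of cohomology -/
def hr (X : DR) (i : ℤ) : ℤ := (Module.finrank R ((homologyFunctor MR i).obj X) : ℤ)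

/-- the alternating sum of the ranks of the cohomology modules -/
def chi (X : DR) : ℤ := ∑ᶠ i : ℤ, (Int.negOnePow i : ℤ) * hr X i

lemma hr_support (X : DR) (h : tD.bounded X) : (Function.support (hr X)).Finite := by
  obtain ⟨⟨a, ha⟩, ⟨b, hb⟩⟩ := h
  apply (Set.finite_Icc a b).subset
  intro i hi
  rw [Function.mem_support] at hi
  by_contra hn
  apply hi
  rw [Set.mem_Icc, not_and_or] at hn
  have hz : IsZero ((homologyFunctor MR i).obj X) := by
    rcases hn with hn | hn
    · exact isZero_of_isGE X a i (by omega)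
    · exact isZero_of_isLE X b i (by omega)
  have : Subsingleton ((homologyFunctor MR i).obj X) := ModuleCat.subsingleton_of_isZero hz
  rw [hr, Module.finrank_zero_of_subsingleton]; rfl

lemma chi_add (T : Triangle DR) (hT : T ∈ distTriang DR) (h1 : Pf T.obj₁) (h2 : Pf T.obj₂)
    (h3 : Pf T.obj₃) : chi T.obj₂ = chi T.obj₁ + chi T.obj₃ := by
  set d : ℤ → ℤ := fun n => (rk (HomologySequence.δ T (n - 1) n (by lia)) : ℤ) with hd
  set a : ℤ → ℤ := fun n => (rk ((homologyFunctor MR n).map T.mor₁) : ℤ) with ha
  set b : ℤ → ℤ := fun n => (rk ((homologyFunctor MR n).map T.mor₂) : ℤ) with hb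
  have e1 : ∀ n, hr T.obj₁ n = d n + a n := by
    intro n
    have := rk_add _ (HomologySequence.exact₁ T hT (n - 1) n (by lia)) (h1.2 n)
    simp only [hr, hd, ha]
    exact_mod_cast this
  have e2 : ∀ n, hr T.obj₂ n = a n + b n := by
    intro n
    have := rk_add _ (HomologySequence.exact₂ T hT n) (h2.2 n)
    simp only [hr, hb, ha]
    exact_mod_cast this
  have e3 : ∀ n, hr T.obj₃ n = b n + d (n + 1) := by
    intro n
    have := rk_add _ (HomologySequence.exact₃ T hT n (n + 1) rfl) (h3.2 n)
    simp only [hr, hb, hd]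
    have key : ∀ (m : ℤ) (hm : m = n) (h' : m + 1 = n + 1),
        rk (HomologySequence.δ T m (n + 1) h') = rk (HomologySequence.δ T n (n + 1) rfl) := by
      intro m hm h'; subst hm; rfl
    rw [key (n + 1 - 1) (by ring) (by ring)]
    exact_mod_cast this
  have s1 := hr_support T.obj₁ h1.1
  have s2 := hr_support T.obj₂ h2.1
  have s3 := hr_support T.obj₃ h3.1
  have na : ∀ n, 0 ≤ a n := fun n => by simp [ha]
  have nb : ∀ n, 0 ≤ b n := fun n => by simp [hb]
  have nd : ∀ n, 0 ≤ d n := fun n => by simp [hd]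
  have sd : (Function.support d).Finite := s1.subset (by
    intro n hn
    rw [Function.mem_support] at hn ⊢
    rw [e1 n]
    have := na n; have := nd n; omega)
  have sa : (Function.support a).Finite := s2.subset (by
    intro n hn
    rw [Function.mem_support] at hn ⊢
    rw [e2 n]
    have := na n; have := nb n; omega)
  have sb : (Function.support b).Finite := s2.subset (by
    intro n hn
    rw [Function.mem_support] at hn ⊢
    rw [e2 n]
    have := na n; have := nb n; omega)
  have sd' : (Function.support (fun n => d (n + 1))).Finite := s3.subset (by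
    intro n hn
    rw [Function.mem_support] at hn ⊢
    rw [e3 n]
    have := nb n; have := nd (n + 1); simp only [ne_eq] at hn; omega)
  have hsup : ∀ (g : ℤ → ℤ), (Function.support g).Finite →
      (Function.support (fun n : ℤ => (Int.negOnePow n : ℤ) * g n)).Finite := by
    intro g hg
    apply hg.subset
    intro n hn
    rw [Function.mem_support] at hn ⊢
    exact right_ne_zero_of_mul hn
  have f1 : chi T.obj₁ = (∑ᶠ n : ℤ, (Int.negOnePow n : ℤ) * d n) + ∑ᶠ n : ℤ, (Int.negOnePow n : ℤ) * a n := by
    rw [← finsum_add_distrib (hsup d sd) (hsup a sa)]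
    apply finsum_congr
    intro n; rw [e1 n]; ring
  have f2 : chi T.obj₂ = (∑ᶠ n : ℤ, (Int.negOnePow n : ℤ) * a n) + ∑ᶠ n : ℤ, (Int.negOnePow n : ℤ) * b n := by
    rw [← finsum_add_distrib (hsup a sa) (hsup b sb)]
    apply finsum_congr
    intro n; rw [e2 n]; ring
  have f3 : chi T.obj₃ = (∑ᶠ n : ℤ, (Int.negOnePow n : ℤ) * b n) + ∑ᶠ n : ℤ, (Int.negOnePow n : ℤ) * d (n + 1) := by
    rw [← finsum_add_distrib (hsup b sb) (hsup _ sd')]
    apply finsum_congr
    intro n; rw [e3 n]; ring
  have f4 : ∑ᶠ n : ℤ, (Int.negOnePow n : ℤ) * d (n + 1) = - ∑ᶠ n : ℤ, (Int.negOnePow n : ℤ) * d n := by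
    rw [← finsum_neg_distrib]
    rw [← finsum_comp_equiv (Equiv.addRight (1 : ℤ)) (f := fun n : ℤ => -((Int.negOnePow n : ℤ) * d n))]
    apply finsum_congr
    intro n
    simp [Int.negOnePow_succ]
  rw [f1, f2, f3, f4]; ring

lemma chi_iso {X Y : DR} (e : X ≅ Y) : chi X = chi Y := by
  unfold chi hr
  apply finsum_congr
  intro i
  rw [((homologyFunctor MR i).mapIso e).toLinearEquiv.finrank_eq]

lemma chi_sl (k : ℤ) (M : MR) : chi (sl k M) = (Int.negOnePow k : ℤ) * Module.finrank R M := by
  unfold chi
  rw [finsum_eq_single _ (-k)]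
  · rw [hr, (homSl k M).toLinearEquiv.finrank_eq, Int.negOnePow_neg]
  · intro i hi
    have hz : IsZero ((homologyFunctor MR i).obj (sl k M)) := by
      rcases lt_or_gt_of_ne hi with h | h
      · exact isZero_of_isGE _ (-k) i h
      · exact isZero_of_isLE _ (-k) i h
    have : Subsingleton ((homologyFunctor MR i).obj (sl k M)) := ModuleCat.subsingleton_of_isZero hz
    rw [hr, Module.finrank_zero_of_subsingleton]; simp

lemma chi_zero {X : DR} (h : IsZero X) : chi X = 0 := by
  unfold chi
  rw [finsum_eq_zero_of_forall_eq_zero]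
  intro i
  have : Subsingleton ((homologyFunctor MR i).obj X) :=
    ModuleCat.subsingleton_of_isZero (Functor.map_isZero _ h)
  rw [hr, Module.finrank_zero_of_subsingleton]; simp

end

end Pool.Agent.Q192.JH
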