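import Mathlib
import Pool.Agent.Q192.JH.Cat

set_option linter.style.longLine false

namespace Pool.Agent.Q192.JH

open CategoryTheory CategoryTheory.Limits CategoryTheory.Pretriangulated
open CategoryTheory.Triangulated DerivedCategory
open scoped ZeroObject

noncomputable section

/-- torsion-free modules -/
def TF (M : MR) : Prop := ∀ (r : R) (m : M), r • m = 0 → r = 0 ∨ m = 0

/-- torsion modules -/
def Tor (M : MR) : Prop := ∀ m : M, ∃ r : R, r ≠ 0 ∧ r • m = 0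

/-- the slices: `S (1/2 + k)` consists of torsion-free modules in degree `-k`,
`S (1 + k)` of torsion modules in degree `-k`. -/
def S (φ : ℝ) : ObjectProperty DR := fun X =>
  IsZero X ∨ ∃ (k : ℤ) (M : MR), Nonempty (X ≅ sl k M) ∧
    ((φ = 1 / 2 + k ∧ TF M) ∨ (φ = 1 + k ∧ Tor M))

lemma TF_of_iso {M N : MR} (e : M ≅ N) (h : TF M) : TF N := by
  intro r m hm
  have h1 := h r (e.inv.hom m) (by rw [← map_smul, hm, map_zero])
  rcases h1 with h1 | h1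
  · exact Or.inl h1
  · right
    have : e.hom.hom (e.inv.hom m) = m := by
      rw [← LinearMap.comp_apply, ← ModuleCat.hom_comp, e.inv_hom_id]; rfl
    rw [← this, h1, map_zero]

lemma Tor_of_iso {M N : MR} (e : M ≅ N) (h : Tor M) : Tor N := by
  intro m
  obtain ⟨r, hr, h1⟩ := h (e.inv.hom m)
  refine ⟨r, hr, ?_⟩
  have : e.hom.hom (e.inv.hom m) = m := by
    rw [← LinearMap.comp_apply, ← ModuleCat.hom_comp, e.inv_hom_id]; rfl
  rw [← this, ← map_smul, h1, map_zero]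

lemma TF_prod {M N : MR} (h1 : TF M) (h2 : TF N) : TF (ModuleCat.of R (M × N)) := by
  rintro r ⟨m, n⟩ h
  have ha : r • m = 0 := congrArg Prod.fst h
  have hb : r • n = 0 := congrArg Prod.snd h
  rcases h1 r m ha with h | h
  · exact Or.inl h
  · rcases h2 r n hb with h' | h'
    · exact Or.inl h'
    · right; rw [h, h']; rfl

lemma Tor_prod {M N : MR} (h1 : Tor M) (h2 : Tor N) : Tor (ModuleCat.of R (M × N)) := by
  rintro ⟨m, n⟩
  obtain ⟨r, hr, h⟩ := h1 m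
  obtain ⟨s, hs, h'⟩ := h2 n
  refine ⟨r * s, mul_ne_zero hr hs, ?_⟩
  apply Prod.ext
  · show (r * s) • m = 0
    rw [mul_comm, mul_smul, h, smul_zero]
  · show (r * s) • n = 0
    rw [mul_smul, h', smul_zero]

lemma hom_Tor_TF {M N : MR} (h1 : Tor M) (h2 : TF N) (f : M ⟶ N) : f = 0 := by
  ext m
  obtain ⟨r, hr, h⟩ := h1 m
  have : r • f.hom m = 0 := by rw [← map_smul, h, map_zero]
  exact (h2 r _ this).resolve_left hr

lemma S_iso {φ : ℝ} {X Y : DR} (e : X ≅ Y) (h : S φ X) : S φ Y := by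
  rcases h with h | ⟨k, M, ⟨e'⟩, h⟩
  · exact Or.inl (h.of_iso e.symm)
  · exact Or.inr ⟨k, M, ⟨e.symm ≪≫ e'⟩, h⟩

instance (φ : ℝ) : (S φ).IsClosedUnderIsomorphisms where
  of_iso e h := S_iso e h

/-- shift of `sl` -/
def slShift (k a : ℤ) (M : MR) : (sl k M)⟦a⟧ ≅ sl (k + a) M :=
  ((shiftFunctorAdd DR k a).app _).symm

lemma S_shift {φ : ℝ} {X : DR} (a : ℤ) (h : S φ X) : S (φ + a) (X⟦a⟧) := by
  rcases h with h | ⟨k, M, ⟨e⟩, h⟩
  · exact Or.inl (Functor.map_isZero _ h)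
  · refine Or.inr ⟨k + a, M, ⟨(shiftFunctor DR a).mapIso e ≪≫ slShift k a M⟩, ?_⟩
    push_cast
    rcases h with ⟨h, h'⟩ | ⟨h, h'⟩
    · left; exact ⟨by rw [h]; ring, h'⟩
    · right; exact ⟨by rw [h]; ring, h'⟩

lemma S_shift_iff {φ : ℝ} {X : DR} : S (φ + 1) (X⟦(1 : ℤ)⟧) ↔ S φ X := by
  constructor
  · intro h
    have h1 := S_shift (-1) h
    have h2 := S_iso ((shiftShiftNeg X (1 : ℤ))) h1
    push_cast at h2
    rwa [show φ + 1 + -1 = φ by ring] at h2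
  · intro h
    have h1 := S_shift 1 h
    push_cast at h1
    exact h1

/-- the functor `M ↦ sl k M` -/
abbrev slF (k : ℤ) : MR ⥤ DR := singleFunctor MR 0 ⋙ shiftFunctor DR k

instance (k : ℤ) : (slF k).Additive := inferInstance

instance (k : ℤ) (M N : MR) : PreservesBinaryBiproduct M N (slF k) :=
  preservesBinaryBiproduct_of_preservesBiproduct (slF k) M N

lemma S_biprod {φ : ℝ} {X Y : DR} (h1 : S φ X) (h2 : S φ Y) : S φ (X ⊞ Y) := by
  rcases h1 with h1 | ⟨k, M, ⟨e⟩, h1⟩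
  · refine S_iso ?_ h2
    exact (isoZeroBiprod h1)
  rcases h2 with h2 | ⟨l, N, ⟨e'⟩, h2⟩
  · refine S_iso (isoBiprodZero h2) ?_
    exact Or.inr ⟨k, M, ⟨e⟩, h1⟩
  have hkl : k = l := by
    rcases h1 with ⟨h1, -⟩ | ⟨h1, -⟩ <;> rcases h2 with ⟨h2, -⟩ | ⟨h2, -⟩
    · have : (k : ℝ) = l := by linarith
      exact_mod_cast this
    · exfalso
      have h3 : (2 * k + 1 : ℝ) = 2 * l + 2 := by linarith
      have h4 : 2 * k + 1 = 2 * l + 2 := by exact_mod_cast h3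
      omega
    · exfalso
      have h3 : (2 * k + 2 : ℝ) = 2 * l + 1 := by linarith
      have h4 : 2 * k + 2 = 2 * l + 1 := by exact_mod_cast h3
      omega
    · have : (k : ℝ) = l := by linarith
      exact_mod_cast this
  subst hkl
  refine Or.inr ⟨k, M ⊞ N, ⟨biprod.mapIso e e' ≪≫ ((slF k).mapBiprod M N).symm⟩, ?_⟩
  have e3 : M ⊞ N ≅ ModuleCat.of R (M × N) := ModuleCat.biprodIsoProd M N
  rcases h1 with ⟨h1, h1'⟩ | ⟨h1, h1'⟩ <;> rcases h2 with ⟨h2, h2'⟩ | ⟨h2, h2'⟩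
  · exact Or.inl ⟨h1, TF_of_iso e3.symm (TF_prod h1' h2')⟩
  · exfalso; linarith
  · exfalso; linarith
  · exact Or.inr ⟨h1, Tor_of_iso e3.symm (Tor_prod h1' h2')⟩

lemma S_hom {φ₁ φ₂ : ℝ} (hφ : φ₂ < φ₁) {X Y : DR} (f : X ⟶ Y) (h1 : S φ₁ X) (h2 : S φ₂ Y) :
    f = 0 := by
  rcases h1 with h1 | ⟨k, M, ⟨e⟩, h1⟩
  · exact h1.eq_of_src _ _
  rcases h2 with h2 | ⟨l, N, ⟨e'⟩, h2⟩
  · exact h2.eq_of_tgt _ _
  suffices h : e.inv ≫ f ≫ e'.hom = 0 by
    have : f = e.hom ≫ (e.inv ≫ f ≫ e'.hom) ≫ e'.inv := by simp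
    rw [this, h]; simp
  have hkl : l ≤ k := by
    by_contra hlt
    push Not at hlt
    have h3 : (k : ℝ) + 1 ≤ l := by exact_mod_cast hlt
    rcases h1 with ⟨h1, -⟩ | ⟨h1, -⟩ <;> rcases h2 with ⟨h2, -⟩ | ⟨h2, -⟩ <;> linarith
  rcases hkl.lt_or_eq with hlt | heq
  · exact tD.zero _ (-k) (-l) (by omega)
  · subst heq
    obtain ⟨g, hg⟩ := (slF l).map_surjective (e.inv ≫ f ≫ e'.hom)
    rw [← hg]
    have hM : Tor M := by
      rcases h1 with ⟨h1, -⟩ | ⟨h1, h⟩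
      · exfalso
        rcases h2 with ⟨h2, -⟩ | ⟨h2, -⟩ <;> linarith
      · exact h
    have hN : TF N := by
      rcases h2 with ⟨h2, h⟩ | ⟨h2, -⟩
      · exact h
      · exfalso
        rcases h1 with ⟨h1, -⟩ | ⟨h1, -⟩ <;> linarith
    rw [hom_Tor_TF hM hN g]
    simp

end

end Pool.Agent.Q192.JH
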