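import Mathlib
import Pool.Agent.Q192.JH.Rank
import Pool.Agent.Q192.JH.Slices
import Pool.Agent.Q192.JH.HN

set_option linter.style.longLine false

namespace Pool.Agent.Q192.JH

open CategoryTheory CategoryTheory.Limits CategoryTheory.Pretriangulated
open CategoryTheory.Triangulated DerivedCategory CategoryTheory.ObjectProperty
open scoped ZeroObject

noncomputable section

set_option backward.defeqAttrib.useBackward true in
set_option backward.isDefEq.respectTransparency false in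
lemma lift_tri (X Y Z : CC) (f : X.obj ⟶ Y.obj) (g : Y.obj ⟶ Z.obj)
    (h : Z.obj ⟶ X.obj⟦(1 : ℤ)⟧) (hT : Triangle.mk f g h ∈ distTriang DR) :
    ∃ (f' : X ⟶ Y) (g' : Y ⟶ Z) (h' : Z ⟶ X⟦(1 : ℤ)⟧), Triangle.mk f' g' h' ∈ distTriang CC := by
  refine ⟨Pf.fullyFaithfulι.preimage f, Pf.fullyFaithfulι.preimage g,
    Pf.fullyFaithfulι.preimage (h ≫ (Pf.ι.commShiftIso (1 : ℤ)).inv.app X), ?_⟩
  exact isomorphic_distinguished _ hT _
    (Triangle.isoMk _ _ (Iso.refl _) (Iso.refl _) (Iso.refl _))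

/-- the slices in `CC` -/
def PC (φ : ℝ) : ObjectProperty CC := (S φ).inverseImage Pf.ι

lemma PC_iff (φ : ℝ) (X : CC) : PC φ X ↔ S φ X.obj := Iff.rfl

instance : Pf.ι.Additive := inferInstance

instance (X Y : CC) : PreservesBinaryBiproduct X Y Pf.ι :=
  preservesBinaryBiproduct_of_preservesBiproduct Pf.ι X Y

/-- the short exact sequence of the torsion submodule -/
def torSeq (M : MR) : ShortComplex MR :=
  ShortComplex.mk (ModuleCat.ofHom (Submodule.subtype (Submodule.torsion R M)))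
    (ModuleCat.ofHom (Submodule.mkQ (Submodule.torsion R M))) (by
      ext x
      simp)

lemma torSeq_exact (M : MR) : (torSeq M).ShortExact := by
  refine ShortComplex.ShortExact.mk' ?_ ?_ ?_
  · rw [ShortComplex.moduleCat_exact_iff_range_eq_ker]
    show LinearMap.range (Submodule.subtype (Submodule.torsion R M)) =
      LinearMap.ker (Submodule.mkQ (Submodule.torsion R M))
    rw [Submodule.range_subtype, Submodule.ker_mkQ]
  · rw [ModuleCat.mono_iff_injective]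
    exact Subtype.val_injective
  · rw [ModuleCat.epi_iff_surjective]
    exact Submodule.mkQ_surjective _

lemma torSeq_Tor (M : MR) : Tor (torSeq M).X₁ := by
  intro (m : Submodule.torsion R M)
  obtain ⟨⟨a, ha⟩, h⟩ := (Submodule.mem_torsion_iff (m : M)).1 m.2
  refine ⟨a, nonZeroDivisors.ne_zero ha, ?_⟩
  apply Subtype.ext
  exact h

lemma torSeq_TF (M : MR) : TF (torSeq M).X₃ := by
  intro r m h
  obtain ⟨m, rfl⟩ := Submodule.mkQ_surjective _ m
  by_cases hr : r = 0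
  · exact Or.inl hr
  · right
    have h1 : r • m ∈ Submodule.torsion R M := by
      rw [← Submodule.Quotient.mk_eq_zero]
      exact h
    obtain ⟨⟨a, ha⟩, h2⟩ := (Submodule.mem_torsion_iff _).1 h1
    apply (Submodule.Quotient.mk_eq_zero _).2
    rw [Submodule.mem_torsion_iff]
    refine ⟨⟨a * r, mem_nonZeroDivisors_of_ne_zero (mul_ne_zero (nonZeroDivisors.ne_zero ha) hr)⟩, ?_⟩
    show (a * r) • m = 0
    rw [mul_smul]; exact h2

lemma tri_iso2 {A B B' C : DR} (e : B' ≅ B) (f : A ⟶ B) (g : B ⟶ C) (h : C ⟶ A⟦(1 : ℤ)⟧)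
    (hd : Triangle.mk f g h ∈ distTriang DR) :
    Triangle.mk (f ≫ e.inv) (e.hom ≫ g) h ∈ distTriang DR := by
  refine isomorphic_distinguished _ hd _ (Triangle.isoMk _ _ (Iso.refl _) e (Iso.refl _) ?_ ?_ ?_)
  · show (f ≫ e.inv) ≫ e.hom = 𝟙 A ≫ f
    rw [Category.assoc, e.inv_hom_id, Category.comp_id, Category.id_comp]
  · show (e.hom ≫ g) ≫ 𝟙 C = e.hom ≫ g
    rw [Category.comp_id]
  · show h ≫ (shiftFunctor DR (1 : ℤ)).map (𝟙 A) = 𝟙 C ≫ h
    rw [CategoryTheory.Functor.map_id, Category.comp_id, Category.id_comp]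

lemma ext_deg (b : ℤ) (Y : CC) (h1 : tC.IsLE Y b) (h2 : tC.IsGE Y b) :
    extensionProduct (PC (1 - b)) (PC (1 / 2 - b)) Y := by
  rw [Pf.tStructure_isLE_iff] at h1
  rw [Pf.tStructure_isGE_iff] at h2
  obtain ⟨M, ⟨e⟩⟩ := exists_sl Y.obj (-b) (by simpa using h1) (by simpa using h2)
  have hM : Module.Finite R M :=
    finite_of_iso ((homologyFunctor MR (- -b)).mapIso e ≪≫ homSl (-b) M) (Y.2.2 _)
  have hT : Module.Finite R (torSeq M).X₁ := by
    show Module.Finite R (Submodule.torsion R M)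
    infer_instance
  have hF : Module.Finite R (torSeq M).X₃ := by
    show Module.Finite R (M ⧸ Submodule.torsion R M)
    infer_instance
  have hS := torSeq_exact M
  obtain ⟨f0, g0, h0, hd⟩ : ∃ (f0 : sl (-b) (torSeq M).X₁ ⟶ sl (-b) M)
      (g0 : sl (-b) M ⟶ sl (-b) (torSeq M).X₃)
      (h0 : sl (-b) (torSeq M).X₃ ⟶ (sl (-b) (torSeq M).X₁)⟦(1 : ℤ)⟧),
      Triangle.mk f0 g0 h0 ∈ distTriang DR :=
    ⟨_, _, _, Triangle.shift_distinguished _ hS.singleTriangle_distinguished (-b)⟩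
  have hd' := tri_iso2 e f0 g0 h0 hd
  obtain ⟨f', g', h', hd''⟩ := lift_tri ⟨sl (-b) (torSeq M).X₁, sl_Pf _ _ hT⟩ Y
    ⟨sl (-b) (torSeq M).X₃, sl_Pf _ _ hF⟩ _ _ _ hd'
  refine ⟨_, _, f', g', h', hd'', ?_, ?_⟩
  · refine Or.inr ⟨-b, (torSeq M).X₁, ⟨Iso.refl _⟩, Or.inr ⟨by push_cast; ring, torSeq_Tor M⟩⟩
  · refine Or.inr ⟨-b, (torSeq M).X₃, ⟨Iso.refl _⟩, Or.inl ⟨by push_cast; ring, torSeq_TF M⟩⟩

/-- the slicing -/
def slicing : Slicing CC where
  P := PC
  iso_closed φ X Y e h := S_iso (Pf.ι.mapIso e) h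
  zero_mem φ X h := Or.inl (Functor.map_isZero Pf.ι h)
  biprod_mem φ X Y h1 h2 := S_iso (Pf.ι.mapBiprod X Y).symm (S_biprod h1 h2)
  shift_iff φ X := by
    rw [PC_iff, PC_iff, ← S_shift_iff (φ := φ)]
    constructor
    · intro h; exact S_iso ((Pf.ι.commShiftIso (1 : ℤ)).app X) h
    · intro h; exact S_iso ((Pf.ι.commShiftIso (1 : ℤ)).app X).symm h
  hom_zero φ₁ φ₂ h X Y f h1 h2 := by
    apply Pf.ι.map_injective
    rw [Functor.map_zero]
    exact S_hom h _ h1 h2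
  hn E := by
    obtain ⟨⟨⟨a, ha⟩, ⟨b, hb⟩⟩, -⟩ := E.2
    exact HN_exists tC PC ext_deg E a b ((Pf.tStructure_isGE_iff tD E a).2 ha)
      ((Pf.tStructure_isLE_iff tD E b).2 hb)

end

end Pool.Agent.Q192.JH
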