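import Mathlib
import Pool.Agent.Q192.JH.Defs

set_option linter.style.longLine false

namespace Pool.Agent.Q192.JH

open CategoryTheory CategoryTheory.Limits

universe v u

variable {D : Type u} [Category.{v} D] [Preadditive D]

lemma strict_id (c : D) : IsStrictMono (𝟙 c) :=
  ⟨c, 0, comp_zero, ⟨KernelFork.IsLimit.ofι _ _ (fun g _ => g) (fun g _ => Category.comp_id g)
    (fun g _ m hm => by rw [← hm]; exact (Category.comp_id m).symm)⟩⟩

lemma strict_zero {Z0 c : D} (hZ : IsZero Z0) : IsStrictMono (0 : Z0 ⟶ c) :=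
  ⟨c, 𝟙 c, zero_comp, ⟨KernelFork.IsLimit.ofι _ _ (fun _ _ => 0)
    (fun g hg => by rw [zero_comp]; rw [Category.comp_id] at hg; exact hg.symm)
    (fun _ _ m _ => hZ.eq_of_tgt m 0)⟩⟩

lemma strict_split {X Y c : D} (i : X ⟶ c) (p : c ⟶ X) (j : Y ⟶ c) (q : c ⟶ Y)
    (hip : i ≫ p = 𝟙 X) (hiq : i ≫ q = 0) (htot : p ≫ i + q ≫ j = 𝟙 c) : IsStrictMono i := by
  refine ⟨Y, q, hiq, ⟨KernelFork.IsLimit.ofι _ _ (fun g _ => g ≫ p) (fun g hg => ?_)
    (fun g hg m hm => ?_)⟩⟩
  · have : g = g ≫ (p ≫ i + q ≫ j) := by rw [htot, Category.comp_id]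
    conv_rhs => rw [this]
    rw [Preadditive.comp_add, ← Category.assoc g q j, hg, zero_comp, add_zero, Category.assoc]
  · rw [← hm, Category.assoc, hip, Category.comp_id]

lemma coker_split {X Y c : D} (i : X ⟶ c) (p : c ⟶ X) (j : Y ⟶ c) (q : c ⟶ Y)
    (hjq : j ≫ q = 𝟙 Y) (hiq : i ≫ q = 0) (htot : p ≫ i + q ≫ j = 𝟙 c) :
    Nonempty (IsColimit (CokernelCofork.ofπ q hiq)) := by
  refine ⟨CokernelCofork.IsColimit.ofπ _ _ (fun g _ => j ≫ g) (fun g hg => ?_)
    (fun g hg m hm => ?_)⟩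
  · have : g = (p ≫ i + q ≫ j) ≫ g := by rw [htot, Category.id_comp]
    conv_rhs => rw [this]
    rw [Preadditive.add_comp, Category.assoc p i g, hg, comp_zero, zero_add, Category.assoc]
  · rw [← hm, ← Category.assoc, hjq, Category.id_comp]

lemma coker_zero {Z0 X : D} (hZ : IsZero Z0) (f : Z0 ⟶ X) (w : f ≫ 𝟙 X = 0) :
    Nonempty (IsColimit (CokernelCofork.ofπ (𝟙 X) w)) :=
  ⟨CokernelCofork.IsColimit.ofπ _ _ (fun g _ => g) (fun g _ => Category.id_comp g)
    (fun g _ m hm => by rw [← hm]; exact (Category.id_comp m).symm)⟩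

/-- the composition series of length two of a split object with simple summands -/
def splitSeries {Z0 X Y c : D} (hZ : IsZero Z0) (i : X ⟶ c) (p : c ⟶ X) (j : Y ⟶ c) (q : c ⟶ Y)
    (hip : i ≫ p = 𝟙 X) (hjq : j ≫ q = 𝟙 Y) (hiq : i ≫ q = 0) (htot : p ≫ i + q ≫ j = 𝟙 c)
    (hX : IsSimpleObj X) (hY : IsSimpleObj Y) : CompSeries c where
  n := 2
  obj := ![Z0, X, c]
  incl := fun k => match k with
    | 0 => (0 : Z0 ⟶ c)
    | 1 => i
    | 2 => 𝟙 c
  strict := fun k => match k with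
    | 0 => strict_zero hZ
    | 1 => strict_split i p j q hip hiq htot
    | 2 => strict_id c
  zero := hZ
  last := (inferInstance : IsIso (𝟙 c))
  map := fun k => match k with
    | 0 => (0 : Z0 ⟶ X)
    | 1 => i
  comm := fun k => match k with
    | 0 => (zero_comp : (0 : Z0 ⟶ X) ≫ i = 0)
    | 1 => Category.comp_id i
  quot := ![X, Y]
  proj := fun k => match k with
    | 0 => 𝟙 X
    | 1 => q
  w := fun k => match k with
    | 0 => (zero_comp : (0 : Z0 ⟶ X) ≫ 𝟙 X = 0)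
    | 1 => hiq
  isCokernel := fun k => match k with
    | 0 => coker_zero hZ _ _
    | 1 => coker_split i p j q hjq hiq htot
  simple := fun k => match k with
    | 0 => hX
    | 1 => hY

end Pool.Agent.Q192.JH
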