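import Mathlib
import Pool.Agent.Q192.JH.Slicing
import Pool.Agent.Q192.JH.Split

set_option linter.style.longLine false

namespace Pool.Agent.Q192.JH

open CategoryTheory CategoryTheory.Limits CategoryTheory.Pretriangulated
open CategoryTheory.Triangulated DerivedCategory CategoryTheory.ObjectProperty
open scoped ZeroObject

noncomputable section

/-- the class map: alternating sum of the ranks of the cohomology modules -/
def vK : K0Hom CC (Fin 1 → ℤ) where
  v X := fun _ => chi X.obj
  add T hT := by
    funext i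
    exact chi_add (Pf.ι.mapTriangle.obj T) (Pf.ι.map_distinguished T hT) T.obj₁.2 T.obj₂.2 T.obj₃.2

/-- the central charge `n ↦ n i` -/
def ZC : (Fin 1 → ℤ) →+ ℂ where
  toFun n := (n 0 : ℂ) * Complex.I
  map_zero' := by simp
  map_add' a b := by simp [add_mul]

lemma norm_ZC (n : Fin 1 → ℤ) : ‖ZC n‖ = |(n 0 : ℝ)| := by
  simp [ZC]

lemma finrank_Tor (M : MR) (h : Tor M) : Module.finrank R M = 0 := by
  rw [Module.finrank, rank_eq_zero_iff.2 h]; simp

lemma exp_int (k : ℤ) : Complex.exp (Complex.I * Real.pi * k) = ((Int.negOnePow k : ℤ) : ℂ) := by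
  have h1 : Complex.I * Real.pi * k = k * (Real.pi * Complex.I) := by ring
  rw [h1, Complex.exp_int_mul, Complex.exp_pi_mul_I]
  rcases Int.even_or_odd k with hk | hk
  · rw [Int.negOnePow_even k hk]; simp [hk.neg_one_zpow]
  · rw [Int.negOnePow_odd k hk]; simp [hk.neg_one_zpow]

lemma exp_half (k : ℤ) : Complex.exp (Complex.I * Real.pi * ((1 / 2 + k : ℝ) : ℂ)) =
    Complex.I * ((Int.negOnePow k : ℤ) : ℂ) := by
  push_cast
  rw [mul_add, Complex.exp_add, exp_int]
  congr 1
  have : Complex.I * Real.pi * (1 / 2) = Real.pi / 2 * Complex.I := by ring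
  rw [this, Complex.exp_pi_div_two_mul_I]

/-- the lax stability condition -/
def sigma : LaxStability CC 1 vK (normSeminorm ℝ (Fin 1 → ℝ)) where
  toSlicing := slicing
  Z := ZC
  mass φ c hc h0 := by
    rcases hc with hc | ⟨k, M, ⟨e⟩, hc⟩
    · exfalso
      apply h0
      rw [IsZero.iff_id_eq_zero]
      apply Pf.ι.map_injective
      exact hc.eq_of_src _ _
    · have h1 : ZC (vK.v c) = ((Int.negOnePow k : ℤ) : ℂ) * (Module.finrank R M : ℂ) * Complex.I := by
        show ((chi c.obj : ℤ) : ℂ) * Complex.I = _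
        have h2 : chi c.obj = chi (sl k M) := chi_iso e
        rw [h2, chi_sl]; push_cast; ring
      rcases hc with ⟨hφ, -⟩ | ⟨-, hT⟩
      · refine ⟨Module.finrank R M, by positivity, ?_⟩
        rw [h1, hφ, exp_half]; push_cast; ring
      · refine ⟨0, le_rfl, ?_⟩
        rw [h1, finrank_Tor M hT]; simp
  norm_def x hx := by simpa using hx
  support := by
    refine ⟨1, one_pos, ?_⟩
    intro φ s _ _
    rw [norm_ZC, div_one]
    show ‖(fun i => ((vK.v s.obj i : ℤ) : ℝ))‖ ≤ _
    rw [pi_norm_le_iff_of_nonneg (abs_nonneg _)]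
    intro i
    rw [Subsingleton.elim i 0, Real.norm_eq_abs]

/-- the slice of phase `1/2` -/
abbrev SL : Type 1 := (sigma.P (1 / 2)).FullSubcategory

/-- the embedding of the slice in the derived category of modules -/
abbrev G : SL ⥤ DR := (sigma.P (1 / 2)).ι ⋙ Pf.ι

instance : G.Additive := inferInstance
instance : G.Full := inferInstance
instance : G.Faithful := inferInstance
instance : (slF 0).Full := inferInstance
instance : (slF 0).Faithful := inferInstance

/-- a finitely generated torsion-free module, as an object of the slice -/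
def O (M : MR) (h1 : Module.Finite R M) (h2 : TF M) : SL :=
  ⟨⟨sl 0 M, sl_Pf 0 M h1⟩, Or.inr ⟨0, M, ⟨Iso.refl _⟩, Or.inl ⟨by norm_num, h2⟩⟩⟩

lemma S_half {W : DR} (h : S (1 / 2) W) : IsZero W ∨ ∃ M : MR, Nonempty (W ≅ sl 0 M) ∧ TF M := by
  rcases h with h | ⟨k, M, e, h⟩
  · exact Or.inl h
  · right
    rcases h with ⟨h, h'⟩ | ⟨h, h'⟩
    · have hk : (k : ℝ) = 0 := by linarith
      have : k = 0 := by exact_mod_cast hk
      subst this
      exact ⟨M, e, h'⟩
    · exfalso
      have hk : (2 * k : ℝ) = -1 := by linarith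
      have : 2 * k = -1 := by exact_mod_cast hk
      omega

lemma inj_of_ne_zero {M N : MR} (j : M →ₗ[R] R) (hj : Function.Injective j) (hN : TF N)
    (g : M ⟶ N) (hg : g ≠ 0) : Function.Injective g.hom := by
  rw [injective_iff_map_eq_zero]
  intro x hx
  by_contra hx0
  apply hg
  ext y
  have h1 : j y • x = j x • y := by
    apply hj
    rw [map_smul, map_smul, smul_eq_mul, smul_eq_mul, mul_comm]
  have h2 : j x • g.hom y = 0 := by
    rw [← map_smul, ← h1, map_smul, hx, smul_zero]
  have h3 : j x ≠ 0 := by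
    intro h; apply hx0; apply hj; rw [h, map_zero]
  exact (hN _ _ h2).resolve_left h3

lemma simple_O (M : MR) (h1 : Module.Finite R M) (h2 : TF M) (j : M →ₗ[R] R)
    (hj : Function.Injective j) (x : M) (hx : x ≠ 0) : IsSimpleObj (O M h1 h2) := by
  constructor
  · intro h
    have h3 : IsZero ((slF 0).obj M) := Functor.map_isZero G h
    have h4 : (𝟙 M : M ⟶ M) = 0 := by
      apply (slF 0).map_injective
      exact h3.eq_of_src _ _
    apply hx
    have := congrArg (fun f : M ⟶ M => f.hom x) h4
    exact this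
  · rintro Y f ⟨Z, g, w, ⟨hlim⟩⟩
    have hmono : ∀ {W : SL} (a b : W ⟶ Y), a ≫ f = b ≫ f → a = b := by
      intro W a b hab
      exact Fork.IsLimit.hom_ext hlim hab
    by_cases hg : g = 0
    · right
      have hw : (𝟙 (O M h1 h2)) ≫ g = 0 := by rw [hg, comp_zero]
      obtain ⟨s, hs⟩ : ∃ s : O M h1 h2 ⟶ Y, s ≫ f = 𝟙 (O M h1 h2) :=
        ⟨hlim.lift (KernelFork.ofι (𝟙 (O M h1 h2)) hw),
          hlim.fac (KernelFork.ofι (𝟙 (O M h1 h2)) hw) WalkingParallelPair.zero⟩
      refine ⟨s, ?_, hs⟩
      apply hmono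
      rw [Category.assoc, hs, Category.comp_id, Category.id_comp]
    · left
      suffices hf : f = 0 by
        rw [IsZero.iff_id_eq_zero]
        apply hmono
        rw [hf, comp_zero, comp_zero]
      apply G.map_injective
      rw [Functor.map_zero]
      rcases S_half (W := G.obj Y) Y.2 with hY | ⟨N', ⟨e'⟩, -⟩
      · exact hY.eq_of_src _ _
      rcases S_half (W := G.obj Z) Z.2 with hZ | ⟨N, ⟨e⟩, hN⟩
      · exfalso
        apply hg
        apply G.map_injective
        exact hZ.eq_of_tgt _ _
      obtain ⟨f', hf'⟩ := (slF 0).map_surjective (X := N') (Y := M) (e'.inv ≫ G.map f)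
      obtain ⟨g', hg'⟩ := (slF 0).map_surjective (X := M) (Y := N) (G.map g ≫ e.hom)
      have hcomp : f' ≫ g' = 0 := by
        apply (slF 0).map_injective
        rw [Functor.map_comp, hf', hg', Functor.map_zero]
        have : G.map f ≫ G.map g = 0 := by rw [← Functor.map_comp, w, Functor.map_zero]
        calc (e'.inv ≫ G.map f) ≫ G.map g ≫ e.hom = e'.inv ≫ (G.map f ≫ G.map g) ≫ e.hom := by
              simp only [Category.assoc]
          _ = 0 := by rw [this]; simp
      have hg0 : g' ≠ 0 := by
        intro h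
        rw [h, Functor.map_zero] at hg'
        apply hg
        apply G.map_injective
        rw [Functor.map_zero]
        have h5 : G.map g ≫ e.hom = 0 := hg'.symm
        exact (cancel_mono e.hom).1 (h5.trans zero_comp.symm)
      have hinj := inj_of_ne_zero j hj hN g' hg0
      have hf0 : f' = 0 := by
        ext y
        apply hinj
        have := congrArg (fun a : N' ⟶ N => a.hom y) hcomp
        simpa using this
      rw [hf0, Functor.map_zero] at hf'
      have h5 : e'.inv ≫ G.map f = 0 := hf'.symm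
      exact (cancel_epi e'.inv).1 (h5.trans comp_zero.symm)

end

end Pool.Agent.Q192.JH
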