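import Mathlib
import Pool.Agent.Q192.JH.Main

set_option linter.style.longLine false

namespace Pool.Agent.Q192.JH

open CategoryTheory CategoryTheory.Limits CategoryTheory.Pretriangulated
open CategoryTheory.Triangulated DerivedCategory CategoryTheory.ObjectProperty
open scoped ZeroObject

noncomputable section

/-- `R` as a module -/
abbrev mR : MR := ModuleCat.of R R
/-- the ideal as a module -/
abbrev mI : MR := ModuleCat.of R I2
/-- `R × R` as a module -/
abbrev mRR : MR := ModuleCat.of R (R × R)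

lemma TF_R : TF mR := fun _ _ h => mul_eq_zero.1 h

lemma TF_I : TF mI := by
  intro r m h
  have h1 : r * (m : R) = 0 := congrArg Subtype.val h
  rcases mul_eq_zero.1 h1 with h | h
  · exact Or.inl h
  · exact Or.inr (Subtype.ext h)

lemma TF_RR : TF mRR := TF_prod TF_R TF_R

lemma fR : Module.Finite R mR := (inferInstance : Module.Finite R R)
lemma fI : Module.Finite R mI := (inferInstance : Module.Finite R I2)
lemma fRR : Module.Finite R mRR := (inferInstance : Module.Finite R (R × R))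

section up

variable {M N L : MR} {h1 : Module.Finite R M} {h2 : TF M} {h3 : Module.Finite R N} {h4 : TF N}
  {h5 : Module.Finite R L} {h6 : TF L}

/-- morphisms of modules, in the slice -/
def up (f : M ⟶ N) : O M h1 h2 ⟶ O N h3 h4 := G.preimage ((slF 0).map f)

lemma G_up (f : M ⟶ N) : G.map (up (h1 := h1) (h2 := h2) (h3 := h3) (h4 := h4) f) =
    (slF 0).map f := G.map_preimage _

lemma up_comp (f : M ⟶ N) (g : N ⟶ L) :
    (up f : O M h1 h2 ⟶ O N h3 h4) ≫ (up g : O N h3 h4 ⟶ O L h5 h6) = up (f ≫ g) := by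
  apply G.map_injective
  rw [Functor.map_comp, G_up, G_up, G_up]
  exact ((slF 0).map_comp f g).symm

lemma up_id : (up (𝟙 M) : O M h1 h2 ⟶ O M h1 h2) = 𝟙 _ := by
  apply G.map_injective
  rw [G_up]
  exact ((slF 0).map_id M).trans (G.map_id (O M h1 h2)).symm

lemma up_zero : (up (0 : M ⟶ N) : O M h1 h2 ⟶ O N h3 h4) = 0 := by
  apply G.map_injective
  rw [G_up, Functor.map_zero, Functor.map_zero]
  rfl

lemma up_add (f g : M ⟶ N) : (up (f + g) : O M h1 h2 ⟶ O N h3 h4) = up f + up g := by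
  apply G.map_injective
  rw [G_up, Functor.map_add, Functor.map_add, G_up, G_up]
  rfl

end up

/-- a zero object of the slice -/
def Z00 : SL := ⟨0, Or.inl (Functor.map_isZero Pf.ι (isZero_zero CC))⟩

lemma Z00_zero : IsZero Z00 := by
  rw [IsZero.iff_id_eq_zero]
  apply (sigma.P (1 / 2)).ι.map_injective
  exact (isZero_zero CC).eq_of_src _ _

/-- the middle object -/
abbrev cc : SL := O mRR fRR TF_RR

lemma series (M : MR) (h1 : Module.Finite R M) (h2 : TF M) (j : M →ₗ[R] R)
    (hj : Function.Injective j) (x : M) (hx : x ≠ 0) (e : (R × R) ≃ₗ[R] (M × M)) :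
    ∃ s : CompSeries cc, s.n = 2 ∧ ∀ k, s.quot k = O M h1 h2 := by
  have hs := simple_O M h1 h2 j hj x hx
  let i : M ⟶ mRR := ModuleCat.ofHom (e.symm.toLinearMap ∘ₗ LinearMap.inl R M M)
  let p : mRR ⟶ M := ModuleCat.ofHom (LinearMap.fst R M M ∘ₗ e.toLinearMap)
  let i' : M ⟶ mRR := ModuleCat.ofHom (e.symm.toLinearMap ∘ₗ LinearMap.inr R M M)
  let q : mRR ⟶ M := ModuleCat.ofHom (LinearMap.snd R M M ∘ₗ e.toLinearMap)
  have hip : i ≫ p = 𝟙 M := by
    ext y; simp [i, p]
  have hiq : i ≫ q = 0 := by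
    ext y; simp [i, q]
  have hjq : i' ≫ q = 𝟙 M := by
    ext y; simp [i', q]
  have htot : p ≫ i + q ≫ i' = 𝟙 mRR := by
    apply ModuleCat.hom_ext
    apply LinearMap.ext
    intro y
    show e.symm ((e y).1, 0) + e.symm (0, (e y).2) = y
    rw [← map_add]
    simp
  refine ⟨splitSeries Z00_zero (up i) (up p) (up i') (up q) ?_ ?_ ?_ ?_ hs hs,
    rfl, ?_⟩
  · rw [up_comp, hip, up_id]
  · rw [up_comp, hjq, up_id]
  · rw [up_comp, hiq, up_zero]
  · rw [up_comp, up_comp, ← up_add, htot, up_id]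
  · intro (k : Fin 2)
    match k with
    | 0 => rfl
    | 1 => rfl

lemma iso_of {M N : MR} {h1 : Module.Finite R M} {h2 : TF M} {h3 : Module.Finite R N} {h4 : TF N}
    (e : O M h1 h2 ≅ O N h3 h4) : Nonempty (M ≃ₗ[R] N) := by
  have e' : (slF 0).obj M ≅ (slF 0).obj N := G.mapIso e
  exact ⟨((slF 0).preimageIso e').toLinearEquiv⟩

lemma not_JH : ¬ JordanHolder SL := by
  intro h
  obtain ⟨s, hs2, hs⟩ := series mR fR TF_R LinearMap.id Function.injective_id (1 : R)
    (one_ne_zero) (LinearEquiv.refl R (R × R))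
  obtain ⟨t, ht2, ht⟩ := series mI fI TF_I (Submodule.subtype I2) Subtype.val_injective
    ⟨2, two_mem⟩ (by
      intro h
      have h1 : (2 : R) = 0 := congrArg Subtype.val h
      have := congrArg Zsqrtd.re h1
      norm_num at this) equivRR
  obtain ⟨τ, hτ⟩ := h cc s t
  obtain ⟨e⟩ := hτ ⟨0, by omega⟩
  rw [hs, ht] at e
  obtain ⟨e'⟩ := iso_of e
  exact not_iso e'

lemma massive (X : CC) (hX : sigma.P (1 / 2) X) (h0 : ¬ IsZero X) : 0 < ‖sigma.Z (vK.v X)‖ := by
  have h00 : ¬ IsZero X.obj := by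
    intro h
    apply h0
    rw [IsZero.iff_id_eq_zero]
    apply Pf.ι.map_injective
    exact h.eq_of_src _ _
  rcases S_half (W := X.obj) hX with h | ⟨M, ⟨e⟩, hM⟩
  · exact absurd h h00
  have hf : Module.Finite R M :=
    finite_of_iso ((homologyFunctor MR (-0)).mapIso e ≪≫ homSl 0 M) (X.2.2 _)
  have h1 : chi X.obj = Module.finrank R M := by
    have h2 : chi X.obj = chi (sl 0 M) := chi_iso e
    rw [h2, chi_sl]; simp
  show 0 < ‖ZC (vK.v X)‖
  rw [norm_ZC]
  show 0 < |((chi X.obj : ℤ) : ℝ)|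
  rw [h1, abs_pos]
  intro h
  have h3 : Module.finrank R M = 0 := by exact_mod_cast h
  have h4 : Module.rank R M = 0 := by
    rw [← Module.finrank_eq_rank, h3]; simp
  rw [rank_eq_zero_iff] at h4
  apply h00
  have h5 : IsZero M := by
    have : Subsingleton M := by
      refine ⟨fun a b => ?_⟩
      obtain ⟨r, hr, h6⟩ := h4 (a - b)
      have := (hM r _ h6).resolve_left hr
      exact sub_eq_zero.1 this
    exact ModuleCat.isZero_of_subsingleton M
  exact IsZero.of_iso (Functor.map_isZero (slF 0) h5) e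

end

end Pool.Agent.Q192.JH
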